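import Pool.Agent.H35.SP.Proof

set_option autoImplicit false

namespace Pool.Agent.Results.MP_f2eb9c_nt.SymplecticProducts

open Pool.Agent.H35.SP

/-- **Counterexamples for products of symplectic groups.** Let `p` be an odd prime, `n` a finite
family of natural numbers and `G = ∏_j Sp_{2 n_j}`, so that `G^∨ = ∏_j SO_{2 n_j + 1}`.

1. Let the sum of the entries of `x j - ρ` be odd for some `j`. Then all the cohomology groups
   `H^i(Γ₀(N), M ⊗ k)` vanish, for every `N`, every `i`, every finite field `k` of
   characteristic `p` and every stable lattice `M` in the irreducible representation of highest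
   weight `x - ρ`. So no Hecke eigenclass matches any homomorphism to `G^∨(k)`.
2. Let `a j` be the number of odd entries of `x j`. The homomorphism `r = x^∨ ∘ ω`
   satisfies all the hypotheses of the question with `S = ∅` if and only if `x` is strongly
   regular and `p` divides `∑_j (n_j - 2 a_j) (n_j + 1 - 2 a_j)`.
3. There is a weight `x` with both properties, so that the question has a negative answer for
   `G` and `p`, if and only if there are numbers `i_j ≤ n_j` such that the sum of the triangular
   numbers `i_j (i_j + 1) / 2` is divisible by `p` and at least one of them is odd. -/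
theorem result (p : ℕ) [Fact p.Prime] (hp : p ≠ 2) (ι : Type) [Fintype ι] (n : ι → ℕ) :
    (∀ (x : ∀ j, Fin (n j) → ℤ) (j : ι), Odd (∑ i, (x j i - rho (n j) i)) →
      ∀ (V : Type) [AddCommGroup V] [Module ℚ V] (π : Representation ℚ (SpP n ℚ) V),
        IsIrreducibleOfHighestWeight π (fun j i => x j i - rho (n j) i) →
        ∀ (M : Submodule ℤ V) (hM : IsStableLattice π M) (k : Type) [Field k] [Finite k]
          [CharP k p] (N i : ℕ), Subsingleton (H hM N k i)) ∧
    (∀ (x : ∀ j, Fin (n j) → ℤ) (k : Type) [Field k] [Finite k] [CharP k p],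
      ∃ r : GQ →* SOP n k, IsCoch p k x r ∧ (Hypotheses p k x ∅ r ↔ (∀ j, StronglyRegular (x j)) ∧
        (p : ℤ) ∣ ∑ j, ((n j : ℤ) - 2 * numOdd (x j)) * (n j + 1 - 2 * numOdd (x j)))) ∧
    ((∃ x : ∀ j, Fin (n j) → ℤ, (∃ j, Odd (∑ i, (x j i - rho (n j) i))) ∧
      ∀ (k : Type) [Field k] [Finite k] [CharP k p],
        ∃ r : GQ →* SOP n k, IsCoch p k x r ∧ Hypotheses p k x ∅ r) ↔
      ∃ i : ι → ℕ, (∀ j, i j ≤ n j) ∧ (∃ j, Odd (i j * (i j + 1) / 2)) ∧
        p ∣ ∑ j, i j * (i j + 1) / 2) :=
  Pool.Agent.H35.SP.main p hp ι n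

end Pool.Agent.Results.MP_f2eb9c_nt.SymplecticProducts
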